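import Pool.Agent.H424R3.VC2

set_option autoImplicit false

/-!
# MP_1f4382: 3-graphs of VC₂ dimension one can need exponentially many graphs

For every `0 < ε ≤ 1/2800` there is a tripartite 3-graph with equal parts and VC₂ dimension at most
one (for every choice of the roles of the three parts) such that every `ε`-graph partition of it
uses more than `2 ^ (1 / (800 ε))` graphs.

The 3-graph: points and lines of an affine plane of prime order `p`, all sets of incident pairs,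
and the triples (point, line, set) for which the pair is incident and belongs to the set; the parts
are blown up to equal size.
-/

open Finset

namespace Pool.Agent.Results.MP_1f4382_co.ExponentiallyManyGraphs

open Pool.Agent.H424R3.VC2

/-- The tripartite 3-graph with edge set `H` has VC₂ dimension at least `d`: the vertices `a i` lie
in one part, the `b j` in another one and the `c_S` in the remaining one (all roles of the three
parts up to exchanging `a` and `b`). The vertex `c_∅` is not required: it could always be taken in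
the part of the `a i`. -/
def VC2Ge {n : ℕ} (H : Finset (Fin n × Fin n × Fin n)) (d : ℕ) : Prop :=
  (∃ a b : Fin d → Fin n, ∀ S : Set (Fin d × Fin d), S.Nonempty → ∃ c : Fin n,
    ∀ i j : Fin d, ((a i, b j, c) ∈ H ↔ (i, j) ∈ S)) ∨
  (∃ a b : Fin d → Fin n, ∀ S : Set (Fin d × Fin d), S.Nonempty → ∃ c : Fin n,
    ∀ i j : Fin d, ((a i, c, b j) ∈ H ↔ (i, j) ∈ S)) ∨
  (∃ a b : Fin d → Fin n, ∀ S : Set (Fin d × Fin d), S.Nonempty → ∃ c : Fin n,
    ∀ i j : Fin d, ((c, a i, b j) ∈ H ↔ (i, j) ∈ S))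

/-- There is an `ε`-graph partition of `H` with `M` graphs. -/
def HasGraphPartition {n : ℕ} (H : Finset (Fin n × Fin n × Fin n)) (ε : ℝ) (M : ℕ) : Prop :=
  ∃ α β γ : Fin n → Fin n → Fin M, ∃ f : Fin M → Fin M → Fin M → Bool,
    (((univ : Finset (Fin n × Fin n × Fin n)).filter
      (fun t => ¬ (t ∈ H ↔ f (α t.1 t.2.1) (β t.1 t.2.2) (γ t.2.1 t.2.2) = true))).card : ℝ)
      ≤ ε * (n : ℝ) ^ 3

theorem not_vc2 (p : ℕ) [Fact p.Prime] : ¬ VC2Ge (HH p) 2 := by
  rintro (⟨a, b, hab⟩ | ⟨a, b, hab⟩ | ⟨a, b, hab⟩)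
  · obtain ⟨z, hz⟩ := hab Set.univ Set.univ_nonempty
    obtain ⟨z', hz'⟩ := hab {(0, 0)} ⟨(0, 0), rfl⟩
    simp only [mem_HH, Set.mem_univ, iff_true] at hz
    simp only [mem_HH] at hz'
    have h00 := (hz' 0 0).2 rfl
    have h01 : ¬ adj (φ p (a 0)).1 (φ p (b 1)).1 (φ p z').2 := by
      rw [hz' 0 1]; simp
    have h10 : ¬ adj (φ p (a 1)).1 (φ p (b 0)).1 (φ p z').2 := by
      rw [hz' 1 0]; simp
    rcases unique_line (hz 0 0).1 (hz 1 0).1 (hz 0 1).1 (hz 1 1).1 with h | h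
    · rw [h] at h00
      exact h10 h00
    · rw [h] at h00
      exact h01 h00
  · obtain ⟨y, hy⟩ := hab Set.univ Set.univ_nonempty
    obtain ⟨y', hy'⟩ := hab {(0, 0), (1, 0), (0, 1)} ⟨(0, 0), by simp⟩
    simp only [mem_HH, Set.mem_univ, iff_true] at hy
    simp only [mem_HH] at hy'
    have h00 := (hy' 0 0).2 (by simp)
    have h10 := (hy' 1 0).2 (by simp)
    have h01 := (hy' 0 1).2 (by simp)
    have h11 : ¬ adj (φ p (a 1)).1 (φ p y').1 (φ p (b 1)).2 := by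
      rw [hy' 1 1]; simp
    rcases unique_line (hy 0 0).1 (hy 1 0).1 h00.1 h10.1 with h | h
    · rw [h] at h01
      exact h11 h01
    · rw [← h] at h11
      exact h11 (hy 1 1)
  · obtain ⟨x, hx⟩ := hab Set.univ Set.univ_nonempty
    obtain ⟨x', hx'⟩ := hab {(0, 0), (1, 0), (0, 1)} ⟨(0, 0), by simp⟩
    simp only [mem_HH, Set.mem_univ, iff_true] at hx
    simp only [mem_HH] at hx'
    have h00 := (hx' 0 0).2 (by simp)
    have h10 := (hx' 1 0).2 (by simp)
    have h01 := (hx' 0 1).2 (by simp)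
    have h11 : ¬ adj (φ p x').1 (φ p (a 1)).1 (φ p (b 1)).2 := by
      rw [hx' 1 1]; simp
    rcases unique_line (hx 0 0).1 h00.1 (hx 1 0).1 h10.1 with h | h
    · rw [← h] at h11
      exact h11 (hx 1 1)
    · rw [h] at h01
      exact h11 h01

theorem result : ∀ ε : ℝ, 0 < ε → ε ≤ 1 / 2800 →
    ∃ n : ℕ, ∃ H : Finset (Fin n × Fin n × Fin n), 0 < n ∧ ¬ VC2Ge H 2 ∧
      ∀ M : ℕ, HasGraphPartition H ε M → (2 : ℝ) ^ (1 / (800 * ε)) < M := by
  intro ε hε hε1
  set m := ⌊1 / (80 * ε)⌋₊ with hm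
  have h80 : (35 : ℝ) ≤ 1 / (80 * ε) := by
    rw [le_div_iff₀ (by positivity)]
    linarith
  have hm35 : 35 ≤ m := Nat.le_floor (by exact_mod_cast h80)
  obtain ⟨p, hp, hmp, hp2⟩ := Nat.exists_prime_lt_and_le_two_mul m (by omega)
  have hfact : Fact p.Prime := ⟨hp⟩
  have hp5 : 5 ≤ p := by omega
  have hpr : (35 : ℝ) ≤ p := by exact_mod_cast (by omega : 35 ≤ p)
  have hple : (p : ℝ) ≤ 1 / (40 * ε) := by
    have h1 : (m : ℝ) ≤ 1 / (80 * ε) := Nat.floor_le (by positivity)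
    have h2 : (p : ℝ) ≤ 2 * m := by exact_mod_cast hp2
    have h3 : 1 / (40 * ε) = 2 * (1 / (80 * ε)) := by field_simp; norm_num
    linarith
  have hpge : 1 / (80 * ε) ≤ (p : ℝ) := by
    have h1 : 1 / (80 * ε) < (m : ℝ) + 1 := Nat.lt_floor_add_one _
    have h2 : (m : ℝ) + 1 ≤ p := by exact_mod_cast hmp
    linarith
  have hεp : ε ≤ 1 / (40 * (p : ℝ)) := by
    rw [le_div_iff₀ (by positivity)] at hple ⊢
    linarith
  refine ⟨Fintype.card (Pt p × W p), HH p, Fintype.card_pos, not_vc2 p, ?_⟩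
  rintro M ⟨e, g, h, f, herr⟩
  have hM : 2 ^ (p / 8) < M := by
    by_contra hcon
    have hM2 : M ≤ 2 ^ (p / 8) := not_lt.1 hcon
    have h1 := error hp5 hM2 e g h f
    have h2 : ((((2 ^ (p ^ 3)) ^ 3 * p ^ 5 : ℕ)) : ℝ) ≤ ((20 * ((univ : Finset (Fin (Fintype.card
        (Pt p × W p)) × Fin (Fintype.card (Pt p × W p)) × Fin (Fintype.card (Pt p × W p)))).filter
          (fun t => ¬ (t ∈ HH p ↔ f (e t.1 t.2.1) (g t.1 t.2.2) (h t.2.1 t.2.2) = true))).card : ℕ)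
          : ℝ) := by exact_mod_cast h1
    push_cast at h2
    have hn : ((Fintype.card (Pt p × W p) : ℕ) : ℝ) = (p : ℝ) ^ 2 * 2 ^ (p ^ 3) := by
      rw [Fintype.card_prod, card_Pt, card_W]; push_cast; ring
    rw [hn] at herr
    have h3 : ε * ((p : ℝ) ^ 2 * 2 ^ (p ^ 3)) ^ 3 ≤ (2 ^ (p ^ 3)) ^ 3 * (p : ℝ) ^ 5 / 40 := by
      calc ε * ((p : ℝ) ^ 2 * 2 ^ (p ^ 3)) ^ 3
          ≤ 1 / (40 * (p : ℝ)) * ((p : ℝ) ^ 2 * 2 ^ (p ^ 3)) ^ 3 := by gcongr
        _ = (2 ^ (p ^ 3)) ^ 3 * (p : ℝ) ^ 5 / 40 := by field_simp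
    have h4 : 0 < ((2 : ℝ) ^ (p ^ 3)) ^ 3 * (p : ℝ) ^ 5 := by positivity
    linarith
  have hMr : (2 : ℝ) ^ (p / 8) < M := by exact_mod_cast hM
  refine lt_of_le_of_lt ?_ hMr
  rw [← Real.rpow_natCast]
  refine Real.rpow_le_rpow_of_exponent_le (by norm_num) ?_
  have h5 : 1 / (800 * ε) ≤ (p : ℝ) / 10 := by
    have : 1 / (800 * ε) = 1 / (80 * ε) / 10 := by field_simp; norm_num
    rw [this]; linarith
  have h6 : (p : ℝ) / 8 - 7 / 8 ≤ ((p / 8 : ℕ) : ℝ) := by
    have : p ≤ 8 * (p / 8) + 7 := by omega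
    have h7 : (p : ℝ) ≤ 8 * ((p / 8 : ℕ) : ℝ) + 7 := by exact_mod_cast this
    linarith
  linarith

end Pool.Agent.Results.MP_1f4382_co.ExponentiallyManyGraphs
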